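import Pool.Agent.Lib.MP_17d4d1_pr.S.H30.Words
import Pool.Agent.Lib.MP_17d4d1_pr.S.H30.Prod
import Pool.Agent.Lib.MP_17d4d1_pr.S.H43.Ustar
import Pool.Agent.Lib.MP_17d4d1_pr.S.H72.Repr
import Pool.Agent.Lib.MP_17d4d1_pr.S.H74.Bits

set_option autoImplicit false

/-!
# The inequality for four functions

For all FKG weights and all nondecreasing functions `a, b, c ≥ 0` and `0 ≤ t ≤ 1`,
`E[a t] E[b c] + E[a b (1 - t)] E[c] ≤ E[a b c]`.
-/

namespace Pool.Agent.Lib.MP_17d4d1_pr.S.H73

open Finset Pool.Agent.Lib.MP_17d4d1_pr Pool.Agent.Lib.MP_17d4d1_pr.S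

section words

open scoped Classical

variable {α : Type} [Fintype α] [DecidableEq α]

/-- the set of the linear algebra argument -/
def S4 (A B C T : Finset α → Prop) (x : Finset α) : Prop :=
  A x ∧ C xᶜ ∧ ((T x ∧ B xᶜ) ∨ (¬ T x ∧ B x))

theorem four_core (A B C T : Finset α → Prop) (hA : ∀ x y, x ⊆ y → A x → A y)
    (hB : ∀ x y, x ⊆ y → B x → B y) (hC : ∀ x y, x ⊆ y → C x → C y)
    (hT : ∀ x y, x ⊆ y → T x → T y) (φ : Finset α → ℝ)
    (hφ : ∀ x, φ x ≠ 0 → S4 A B C T x)
    (hψ : ∀ z, A z → B z → C z → ∑ y ∈ univ.filter (fun y => y ⊆ z), φ y = 0) :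
    ∀ x, φ x = 0 := by
  -- (1)
  have h1 : ∀ z, B z → C z → ∑ y ∈ univ.filter (fun y => y ⊆ z), φ y = 0 := by
    intro z hz1 hz2
    by_cases hz : A z
    · exact hψ z hz hz1 hz2
    · refine sum_eq_zero fun y hy => ?_
      by_contra hne
      exact hz (hA y z (mem_filter.1 hy).2 (hφ y hne).1)
  have h1' : ∀ x, B xᶜ → C xᶜ → ∑ y ∈ univ.filter (fun y => x ⊆ y), φ y = 0 := by
    intro x hx1 hx2
    exact H30.upper_zero φ x fun z hz => h1 z (hB _ _ hz hx1) (hC _ _ hz hx2)
  -- (2)
  have h2 : ∀ x, T x → ∑ y ∈ univ.filter (fun y => x ⊆ y), φ y = 0 := by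
    intro x hx
    by_cases hxc : C xᶜ
    · by_cases hxb : B xᶜ
      · exact h1' x hxb hxc
      · refine sum_eq_zero fun y hy => ?_
        by_contra hne
        have hxy := (mem_filter.1 hy).2
        obtain ⟨-, -, h | h⟩ := hφ y hne
        · exact hxb (hB _ _ (compl_subset_compl.2 hxy) h.2)
        · exact h.1 (hT _ _ hxy hx)
    · refine sum_eq_zero fun y hy => ?_
      by_contra hne
      have hxy := (mem_filter.1 hy).2
      exact hxc (hC _ _ (compl_subset_compl.2 hxy) (hφ y hne).2.1)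
  -- (3)
  have h3 : ∀ x, T x → φ x = 0 := H30.zero_of_upper φ T hT h2
  have h3' : ∀ x, φ x ≠ 0 → A x ∧ B x := by
    intro x hx
    obtain ⟨ha, -, h | h⟩ := hφ x hx
    · exact absurd (h3 x h.1) hx
    · exact ⟨ha, h.2⟩
  -- (4)
  have h4 : ∀ z, C z → ∑ y ∈ univ.filter (fun y => y ⊆ z), φ y = 0 := by
    intro z hz
    by_cases hab : A z ∧ B z
    · exact hψ z hab.1 hab.2 hz
    · refine sum_eq_zero fun y hy => ?_
      by_contra hne
      have hyz := (mem_filter.1 hy).2
      have := h3' y hne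
      exact hab ⟨hA _ _ hyz this.1, hB _ _ hyz this.2⟩
  have h5 : ∀ x, ∑ y ∈ univ.filter (fun y => x ⊆ y), φ y = 0 := by
    intro x
    by_cases hxc : C xᶜ
    · exact H30.upper_zero φ x fun z hz => h4 z (hC _ _ hz hxc)
    · refine sum_eq_zero fun y hy => ?_
      by_contra hne
      have hxy := (mem_filter.1 hy).2
      exact hxc (hC _ _ (compl_subset_compl.2 hxy) (hφ y hne).2.1)
  exact fun x => H30.zero_of_upper φ (fun _ => True) (fun _ _ _ _ => trivial) (fun x _ => h5 x) x
    trivial

theorem four_card (A B C T : Finset α → Prop) (hA : ∀ x y, x ⊆ y → A x → A y)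
    (hB : ∀ x y, x ⊆ y → B x → B y) (hC : ∀ x y, x ⊆ y → C x → C y)
    (hT : ∀ x y, x ⊆ y → T x → T y) :
    (univ.filter (S4 A B C T)).card ≤ (univ.filter fun x => A x ∧ B x ∧ C x).card := by
  set S := univ.filter (S4 A B C T) with hS
  set R := univ.filter fun x => A x ∧ B x ∧ C x with hR
  have hinj : Function.Injective (H30.lmap S R) := by
    rw [injective_iff_map_eq_zero]
    intro φ hφ
    have h1 : ∀ x, H30.ext0 S φ x = 0 := by
      refine four_core A B C T hA hB hC hT _ ?_ ?_
      · intro x hx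
        unfold H30.ext0 at hx
        split_ifs at hx with h
        · exact (mem_filter.1 h).2
        · exact absurd rfl hx
      · intro z h1 h2 h3
        exact congrFun hφ ⟨z, mem_filter.2 ⟨mem_univ _, h1, h2, h3⟩⟩
    funext x
    have h2 := h1 x.1
    unfold H30.ext0 at h2
    rw [dif_pos x.2] at h2
    exact h2
  have h1 := LinearMap.finrank_le_finrank_of_injective hinj
  rw [Module.finrank_fintype_fun_eq_card, Module.finrank_fintype_fun_eq_card,
    Fintype.card_coe, Fintype.card_coe] at h1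
  exact h1

/-- the inequality for complementary pairs -/
theorem four_words (f g h t : Finset α → ℝ) (hf : Ind f) (hg : Ind g) (hh : Ind h)
    (ht : Ind t) : 0 ≤ ∑ x : Finset α, (f x * g x * h x - f x * t x * (g xᶜ * h xᶜ)
      - f x * g x * (1 - t x) * h xᶜ) := by
  have up : ∀ u : Finset α → ℝ, Ind u → ∀ x y, x ⊆ y → u x = 1 → u y = 1 := by
    intro u hu x y hxy hx
    rcases hu.val y with h0 | h0
    · have := hu.mono hxy
      rw [hx, h0] at this
      linarith
    · exact h0
  have hc := four_card (fun x => f x = 1) (fun x => g x = 1) (fun x => h x = 1)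
    (fun x => t x = 1) (up f hf) (up g hg) (up h hh) (up t ht)
  have hpt : ∀ x : Finset α, (f x * g x * h x - f x * t x * (g xᶜ * h xᶜ)
      - f x * g x * (1 - t x) * h xᶜ) =
      (if f x = 1 ∧ g x = 1 ∧ h x = 1 then (1 : ℝ) else 0) -
        (if S4 (fun x => f x = 1) (fun x => g x = 1) (fun x => h x = 1) (fun x => t x = 1) x
          then (1 : ℝ) else 0) := by
    intro x
    unfold S4
    rcases hf.val x with h1 | h1 <;> rcases hg.val x with h2 | h2 <;>
      rcases hh.val x with h3 | h3 <;> rcases hg.val xᶜ with h4 | h4 <;>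
      rcases hh.val xᶜ with h5 | h5 <;> rcases ht.val x with h6 | h6 <;>
      simp [h1, h2, h3, h4, h5, h6]
  rw [sum_congr rfl fun x _ => hpt x, sum_sub_distrib, sum_boole, sum_boole, sub_nonneg]
  exact_mod_cast hc

end words

/-- The functional. -/
def FF {X : Type} [Fintype X] (w a b c t : Finset X → ℝ) : ℝ :=
  Ex w (a * b * c) - Ex w (a * t) * Ex w (b * c) - Ex w (a * b * (1 - t)) * Ex w c

theorem four_prod {κ : Type} [Fintype κ] [DecidableEq κ] (r : κ → ℝ) (h0 : ∀ i, 0 ≤ r i)
    (h1 : ∀ i, r i ≤ 1) (f g h t : Finset κ → ℝ) (hf : Ind f) (hg : Ind g) (hh : Ind h)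
    (ht : Ind t) : 0 ≤ FF (pw r) f g h t := by
  set T : Finset κ → Finset κ → ℝ := fun x y =>
    f x * g x * h x - f x * t x * (g y * h y) - f x * g x * (1 - t x) * h y with hT
  have hFF : FF (pw r) f g h t = ∑ p : Finset κ × Finset κ, pw r p.1 * pw r p.2 * T p.1 p.2 := by
    have e1 : ∀ u v : Finset κ → ℝ, ∑ p : Finset κ × Finset κ,
        pw r p.1 * pw r p.2 * (u p.1 * v p.2) = Ex (pw r) u * Ex (pw r) v := by
      intro u v
      unfold Ex
      rw [Fintype.sum_prod_type, sum_mul_sum]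
      refine sum_congr rfl fun x _ => sum_congr rfl fun y _ => ?_
      ring
    have e2 : Ex (pw r) (1 : Finset κ → ℝ) = 1 := by
      unfold Ex
      simp only [Pi.one_apply, mul_one]
      exact H30.pw_sum r
    have e3 : ∀ p : Finset κ × Finset κ, pw r p.1 * pw r p.2 * T p.1 p.2 =
        pw r p.1 * pw r p.2 * ((f * g * h) p.1 * (1 : Finset κ → ℝ) p.2) -
        pw r p.1 * pw r p.2 * ((f * t) p.1 * (g * h) p.2) -
        pw r p.1 * pw r p.2 * ((f * g * (1 - t)) p.1 * h p.2) := by
      intro p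
      simp only [hT, Pi.mul_apply, Pi.one_apply, Pi.sub_apply]
      ring
    rw [sum_congr rfl fun p _ => e3 p, sum_sub_distrib, sum_sub_distrib, e1, e1, e1, e2]
    unfold FF
    ring
  rw [hFF]
  rw [← sum_fiberwise_of_maps_to (t := (univ : Finset (Finset κ × Finset κ)))
    (g := fun p : Finset κ × Finset κ => (p.1 ∩ p.2, p.1 ∪ p.2)) (fun _ _ => mem_univ _)]
  refine sum_nonneg fun q _ => ?_
  obtain ⟨a, b⟩ := q
  by_cases hab : a ⊆ b
  · have e1 : ∑ p ∈ (univ : Finset (Finset κ × Finset κ)).filter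
        (fun p => (p.1 ∩ p.2, p.1 ∪ p.2) = (a, b)), pw r p.1 * pw r p.2 * T p.1 p.2 =
        pw r a * pw r b * ∑ p ∈ (univ : Finset (Finset κ × Finset κ)).filter
        (fun p => (p.1 ∩ p.2, p.1 ∪ p.2) = (a, b)), T p.1 p.2 := by
      rw [mul_sum]
      refine sum_congr rfl fun p hp => ?_
      have h2 := (mem_filter.1 hp).2
      simp only [Prod.mk.injEq] at h2
      rw [H30.pw_mul, h2.1, h2.2]
    rw [e1, H30.fibre_sum a b hab T]
    refine mul_nonneg (mul_nonneg (H30.pw_nonneg h0 h1 _) (H30.pw_nonneg h0 h1 _)) ?_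
    exact four_words (fun s => f (H30.emb a (b \ a) s)) (fun s => g (H30.emb a (b \ a) s))
      (fun s => h (H30.emb a (b \ a) s)) (fun s => t (H30.emb a (b \ a) s))
      (H30.ind_emb hf _ _) (H30.ind_emb hg _ _) (H30.ind_emb hh _ _) (H30.ind_emb ht _ _)
  · refine le_of_eq (sum_eq_zero fun p hp => ?_).symm
    exfalso
    have h2 := (mem_filter.1 hp).2
    simp only [Prod.mk.injEq] at h2
    apply hab
    rw [← h2.1, ← h2.2]
    exact inter_subset_left.trans subset_union_left

variable {X : Type} [Fintype X] [DecidableEq X]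

omit [DecidableEq X] in
theorem FF_lin (w b c t : Finset X → ℝ) : ∃ W : Finset X → ℝ, ∀ a : Finset X → ℝ,
    FF w a b c t = ∑ A, a A * W A := by
  refine ⟨fun A => w A * (b A * c A) - w A * t A * Ex w (b * c)
    - w A * (b A * (1 - t A)) * Ex w c, fun a => ?_⟩
  simp only [mul_sub, sum_sub_distrib]
  unfold FF
  congr 1
  · congr 1
    · unfold Ex
      refine sum_congr rfl fun A _ => ?_
      simp only [Pi.mul_apply]
      ring
    · unfold Ex
      rw [sum_mul]
      refine sum_congr rfl fun A _ => ?_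
      simp only [Pi.mul_apply]
      ring
  · unfold Ex
    rw [sum_mul]
    refine sum_congr rfl fun A _ => ?_
    simp only [Pi.mul_apply, Pi.sub_apply, Pi.one_apply]
    ring

omit [DecidableEq X] in
theorem FF_lin_b (w a c t : Finset X → ℝ) : ∃ W : Finset X → ℝ, ∀ b : Finset X → ℝ,
    FF w a b c t = ∑ A, b A * W A := by
  refine ⟨fun A => w A * (a A * c A) - Ex w (a * t) * (w A * c A)
    - w A * (a A * (1 - t A)) * Ex w c, fun b => ?_⟩
  simp only [mul_sub, sum_sub_distrib]
  unfold FF
  congr 1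
  · congr 1
    · unfold Ex
      refine sum_congr rfl fun A _ => ?_
      simp only [Pi.mul_apply]
      ring
    · have : Ex w (b * c) = ∑ A, b A * (w A * c A) := by
        unfold Ex
        refine sum_congr rfl fun A _ => ?_
        simp only [Pi.mul_apply]
        ring
      rw [this, mul_sum]
      refine sum_congr rfl fun A _ => ?_
      ring
  · unfold Ex
    rw [sum_mul]
    refine sum_congr rfl fun A _ => ?_
    simp only [Pi.mul_apply, Pi.sub_apply, Pi.one_apply]
    ring

omit [DecidableEq X] in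
theorem FF_lin_c (w a b t : Finset X → ℝ) : ∃ W : Finset X → ℝ, ∀ c : Finset X → ℝ,
    FF w a b c t = ∑ A, c A * W A := by
  refine ⟨fun A => w A * (a A * b A) - Ex w (a * t) * (w A * b A)
    - Ex w (a * b * (1 - t)) * w A, fun c => ?_⟩
  simp only [mul_sub, sum_sub_distrib]
  unfold FF
  congr 1
  · congr 1
    · unfold Ex
      refine sum_congr rfl fun A _ => ?_
      simp only [Pi.mul_apply]
      ring
    · have : Ex w (b * c) = ∑ A, c A * (w A * b A) := by
        unfold Ex
        refine sum_congr rfl fun A _ => ?_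
        simp only [Pi.mul_apply]
        ring
      rw [this, mul_sum]
      refine sum_congr rfl fun A _ => ?_
      ring
  · have : Ex w c = ∑ A, c A * w A := by
      unfold Ex
      refine sum_congr rfl fun A _ => ?_
      ring
    rw [this, mul_sum]
    refine sum_congr rfl fun A _ => ?_
    ring_nf

omit [DecidableEq X] in
/-- the functional is affine in the last function -/
theorem FF_lin_t (w a b c : Finset X → ℝ) : ∃ W : Finset X → ℝ, ∀ t : Finset X → ℝ,
    FF w a b c t = FF w a b c 0 + ∑ A, t A * W A := by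
  refine ⟨fun A => w A * (a A * b A) * Ex w c - w A * a A * Ex w (b * c), fun t => ?_⟩
  simp only [mul_sub, sum_sub_distrib]
  have e1 : Ex w (a * b * (1 - t)) = Ex w (a * b) - ∑ A, t A * (w A * (a A * b A)) := by
    unfold Ex
    rw [← sum_sub_distrib]
    refine sum_congr rfl fun A _ => ?_
    simp only [Pi.mul_apply, Pi.sub_apply, Pi.one_apply]
    ring
  have e2 : Ex w (a * t) = ∑ A, t A * (w A * a A) := by
    unfold Ex
    refine sum_congr rfl fun A _ => ?_
    simp only [Pi.mul_apply]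
    ring
  have e3 : ∑ A, t A * (w A * (a A * b A) * Ex w c) =
      (∑ A, t A * (w A * (a A * b A))) * Ex w c := by
    rw [sum_mul]
    refine sum_congr rfl fun A _ => ?_
    ring
  have e4 : ∑ A, t A * (w A * a A * Ex w (b * c)) =
      (∑ A, t A * (w A * a A)) * Ex w (b * c) := by
    rw [sum_mul]
    refine sum_congr rfl fun A _ => ?_
    ring
  have e5 : Ex w (a * (0 : Finset X → ℝ)) = 0 := by
    unfold Ex
    simp
  have e6 : Ex w (a * b * (1 - (0 : Finset X → ℝ))) = Ex w (a * b) := by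
    rw [sub_zero, mul_one]
  unfold FF
  rw [e1, e2, e3, e4, e5, e6]
  ring

end Pool.Agent.Lib.MP_17d4d1_pr.S.H73
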