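import Pool.Agent.Lib.MP_17d4d1_pr.S.H73.Four

set_option autoImplicit false

/-!
# The inequality for four functions: reduction to indicators and product weights
-/

namespace Pool.Agent.Lib.MP_17d4d1_pr.S.H73

open Finset Pool.Agent.Lib.MP_17d4d1_pr Pool.Agent.Lib.MP_17d4d1_pr.S

variable {X : Type} [Fintype X] [DecidableEq X]

theorem four_ind (w a b c t : Finset X → ℝ) (hw : FKGW w) (ha : Ind a) (hb : Ind b)
    (hc : Ind c) (ht : Ind t) : 0 ≤ FF w a b c t := by
  obtain ⟨κ, i1, i2, r, Φ, hr0, hr1, hΦ, hE⟩ := H72.repr H74.bits X w hw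
  have := four_prod r hr0 hr1 (a ∘ Φ) (b ∘ Φ) (c ∘ Φ) (t ∘ Φ) (H43.ind_comp ha hΦ)
    (H43.ind_comp hb hΦ) (H43.ind_comp hc hΦ) (H43.ind_comp ht hΦ)
  unfold FF at this ⊢
  rw [hE, hE, hE, hE, hE]
  exact this

theorem ind_zero : Ind (0 : Finset X → ℝ) := ⟨fun _ => Or.inl rfl, fun _ _ _ => le_refl _⟩

/-- the last function is arbitrary -/
theorem four_t (w a b c t : Finset X → ℝ)
    (H : ∀ u : Finset X → ℝ, Ind u → 0 ≤ FF w a b c u)
    (ht0 : ∀ A, 0 ≤ t A) (ht1 : ∀ A, t A ≤ 1) (htm : Monotone t) : 0 ≤ FF w a b c t := by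
  obtain ⟨W, hW⟩ := FF_lin_t w a b c
  have h0 : 0 ≤ FF w a b c 0 := H 0 ind_zero
  by_cases hτ : t univ = 0
  · have : t = 0 := by
      funext A
      have h := htm (subset_univ A)
      rw [hτ] at h
      exact le_antisymm h (ht0 A)
    rw [this]
    exact h0
  · have hpos : 0 < t univ := lt_of_le_of_ne (ht0 _) (Ne.symm hτ)
    -- the scaled function
    have hs : 0 ≤ ∑ A, (t A / t univ) * (W A + if A = univ then FF w a b c 0 else 0) := by
      refine layer _ _ (fun A => t A / t univ) (fun A => div_nonneg (ht0 A) hpos.le) rfl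
        fun s hs => ?_
      by_cases hs1 : s ≤ t univ / t univ
      · have hu : Ind fun A => if s ≤ t A / t univ then (1 : ℝ) else 0 := by
          refine H43.ind_level ⟨fun A => div_nonneg (ht0 A) hpos.le, fun A B hAB => ?_⟩ s
          exact div_le_div_of_nonneg_right (htm hAB) hpos.le
        have h1 := H _ hu
        rw [hW] at h1
        have h2 : ∑ A, (if s ≤ t A / t univ then (1 : ℝ) else 0) *
            (W A + if A = univ then FF w a b c 0 else 0) =
            FF w a b c 0 + ∑ A, (if s ≤ t A / t univ then (1 : ℝ) else 0) * W A := by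
          simp only [mul_add, sum_add_distrib, mul_ite, mul_zero]
          rw [sum_ite_eq' univ univ, if_pos (mem_univ _), if_pos hs1]
          ring
        rw [h2]
        exact h1
      · refine le_of_eq (sum_eq_zero fun A _ => ?_).symm
        rw [if_neg, zero_mul]
        intro h
        exact hs1 (h.trans (div_le_div_of_nonneg_right (htm (subset_univ A)) hpos.le))
    have h3 : ∑ A, (t A / t univ) * (W A + if A = univ then FF w a b c 0 else 0) =
        (∑ A, t A * W A) / t univ + FF w a b c 0 := by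
      simp only [mul_add, sum_add_distrib, mul_ite, mul_zero]
      rw [sum_ite_eq' univ univ, if_pos (mem_univ _), div_self hτ, sum_div]
      congr 1
      · refine sum_congr rfl fun A _ => ?_
        ring
      · ring
    rw [h3] at hs
    rw [hW]
    have h4 : ∑ A, t A * W A = t univ * ((∑ A, t A * W A) / t univ) := by
      rw [mul_div_cancel₀ _ hτ]
    have h5 : 0 ≤ t univ * ((∑ A, t A * W A) / t univ + FF w a b c 0) :=
      mul_nonneg hpos.le hs
    have h6 : 0 ≤ (1 - t univ) * FF w a b c 0 := mul_nonneg (by linarith [ht1 univ]) h0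
    rw [h4]
    nlinarith

theorem FF_layer (Q : (Finset X → ℝ) → ℝ)
    (hQ : ∃ W : Finset X → ℝ, ∀ u : Finset X → ℝ, Q u = ∑ A, u A * W A)
    (H : ∀ u : Finset X → ℝ, Ind u → 0 ≤ Q u) (f : Finset X → ℝ) (hf : Inc f) : 0 ≤ Q f := by
  obtain ⟨W, hW⟩ := hQ
  rw [hW]
  refine layer _ _ f hf.nn rfl fun s _ => ?_
  have := H _ (H43.ind_level hf s)
  rwa [hW] at this

/-- The inequality for four functions. -/
theorem four (w a b c t : Finset X → ℝ) (hw : FKGW w) (ha : Inc a) (hb : Inc b) (hc : Inc c)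
    (ht0 : ∀ A, 0 ≤ t A) (ht1 : ∀ A, t A ≤ 1) (htm : Monotone t) : 0 ≤ FF w a b c t := by
  refine FF_layer (fun a => FF w a b c t) (FF_lin w b c t) (fun a ha => ?_) a ha
  refine FF_layer (fun b => FF w a b c t) (FF_lin_b w a c t) (fun b hb => ?_) b hb
  refine FF_layer (fun c => FF w a b c t) (FF_lin_c w a b t) (fun c hc => ?_) c hc
  exact four_t w a b c t (fun u hu => four_ind w a b c u hw ha hb hc hu) ht0 ht1 htm

end Pool.Agent.Lib.MP_17d4d1_pr.S.H73
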