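import Pool.Agent.Lib.MP_17d4d1_pr.S.H73.Cls
import Pool.Agent.Lib.MP_17d4d1_pr.Reduce

set_option autoImplicit false

/-!
# Assembly: all `n`, with log-supermodular functions
-/

namespace Pool.Agent.Lib.MP_17d4d1_pr.S.H73

open Finset Pool.Agent.Lib.MP_17d4d1_pr Pool.Agent.Lib.MP_17d4d1_pr.S

variable {X : Type} [Fintype X] [DecidableEq X]

theorem three_lsm (hcls : CLS_S) (hen : EN3_S) {ι : Type} [DecidableEq ι]
    {F : ι → Finset X → ℝ} (hF0 : ∀ i x, 0 ≤ F i x) (hmono : ∀ i, Monotone (F i)) (a b c : ι)
    (hK : ∀ k, k ≠ a → k ≠ b → k ≠ c → LSM (F k)) (hc : Cls (F c)) (S : Finset ι) :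
    ∀ w : Finset X → ℝ, (∀ x, 0 ≤ w x) → ∑ x, w x = 1 → LSM w → S.Nonempty → 0 ≤ En w F S := by
  induction S using Finset.strongInduction with
  | H S ih =>
    intro w hw0 hw1 hw hS
    by_cases hSK : ∃ k ∈ S, k ≠ a ∧ k ≠ b ∧ k ≠ c
    · obtain ⟨k, hkS, hka, hkb, hkc⟩ := hSK
      obtain ⟨S', ha, rfl⟩ : ∃ S', k ∉ S' ∧ insert k S' = S :=
        ⟨S.erase k, notMem_erase k S, insert_erase hkS⟩
      refine tilting ha hw0 hF0 ?_ ?_
      · intro hc T hT _
        exact mom_le_tilt hw0 hw1 hw hF0 (hmono k) (fun i _ => hmono i) hc
      · intro hc U hU hcard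
        exact ih U (Finset.ssubset_of_subset_of_ssubset hU (ssubset_insert ha)) _
          (tilt_nonneg hw0 (hF0 k)) (tilt_sum hc) (hw.tilt hw0 (hF0 k) (hK k hka hkb hkc))
          (card_pos.1 (by omega))
    · push Not at hSK
      have hsub : S ⊆ {a, b, c} := by
        intro k hk
        by_cases h1 : k = a
        · simp [h1]
        by_cases h2 : k = b
        · simp [h2]
        have h3 := hSK k hk h1 h2
        simp [h3]
      by_cases h3 : 3 ≤ S.card
      · have hcard : ({a, b, c} : Finset ι).card ≤ 3 := card_le_three
        have hSe : S = {a, b, c} := eq_of_subset_of_card_le hsub (hcard.trans h3)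
        have hab : a ≠ b := by
          rintro rfl
          rw [hSe] at h3
          simp only [mem_insert, mem_singleton, true_or, insert_eq_of_mem] at h3
          exact absurd (h3.trans card_le_two) (by norm_num)
        have hac : a ≠ c := by
          rintro rfl
          rw [hSe, insert_comm] at h3
          simp only [mem_insert, mem_singleton, or_true, insert_eq_of_mem] at h3
          exact absurd (h3.trans card_le_two) (by norm_num)
        have hbc : b ≠ c := by
          rintro rfl
          rw [hSe] at h3
          simp only [mem_singleton, insert_eq_of_mem] at h3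
          exact absurd (h3.trans card_le_two) (by norm_num)
        rw [hSe, hen X ι w F a b c hw1 hab hac hbc]
        exact hcls X w (F a) (F b) (F c) ⟨hw0, hw1, hw⟩ ⟨hF0 a, hmono a⟩ ⟨hF0 b, hmono b⟩ hc
      · obtain ⟨k, hkS⟩ := hS
        obtain ⟨S', ha, rfl⟩ : ∃ S', k ∉ S' ∧ insert k S' = S :=
          ⟨S.erase k, notMem_erase k S, insert_erase hkS⟩
        rw [card_insert_of_notMem ha] at h3
        refine tilting ha hw0 hF0 ?_ ?_
        · intro hc T hT _
          exact mom_le_tilt hw0 hw1 hw hF0 (hmono k) (fun i _ => hmono i) hc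
        · intro _ U hU hcard
          have := card_le_card hU
          omega

theorem main3 (hcls : CLS_S) (hen : EN3_S) {ι : Type} [DecidableEq ι] [Fintype ι] [Nonempty ι]
    {w : Finset X → ℝ} (hw0 : ∀ x, 0 ≤ w x) (hw1 : ∑ x, w x = 1) (hw : LSM w) (a b c : ι)
    (T : Finset ι) :
    ∀ F : ι → Finset X → ℝ, (∀ i x, 0 ≤ F i x) → (∀ i, Monotone (F i)) → Cls (F c) →
      (∀ k, k ≠ a → k ≠ b → k ≠ c → F k ∈ AddSubmonoid.closure (goodSet (Finset X))) →
      (∀ k, k ∉ T → k ≠ a → k ≠ b → k ≠ c → LSM (F k)) →
      0 ≤ En w F univ := by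
  induction T using Finset.induction_on with
  | empty =>
    intro F hF0 hmono hc _ hK
    exact three_lsm hcls hen hF0 hmono a b c (fun k h1 h2 h3 => hK k (notMem_empty k) h1 h2 h3) hc
      univ w hw0 hw1 hw univ_nonempty
  | insert t T ht ih =>
    intro F hF0 hmono hc hK hg
    by_cases habc : t = a ∨ t = b ∨ t = c
    · refine ih F hF0 hmono hc hK fun k hkT h1 h2 h3 => hg k (fun h => ?_) h1 h2 h3
      rcases mem_insert.1 h with h | h
      · subst h
        rcases habc with h | h | h
        · exact h1 h
        · exact h2 h
        · exact h3 h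
      · exact hkT h
    · push Not at habc
      obtain ⟨hta, htb, htc⟩ := habc
      obtain ⟨W, hW⟩ := En_update w F (mem_univ t)
      have hE : En w F univ = ∑ x, F t x * W x := by
        rw [← hW, Function.update_eq_self]
      rw [hE]
      have hcl := hK t hta htb htc
      revert hcl
      generalize F t = v
      intro hcl
      induction hcl using AddSubmonoid.closure_induction with
      | mem u hu =>
        rw [← hW]
        refine ih _ ?_ ?_ ?_ ?_ ?_
        · intro i x
          by_cases hi : i = t
          · subst hi; rw [Function.update_self]; exact hu.1 x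
          · rw [Function.update_of_ne hi]; exact hF0 i x
        · intro i
          by_cases hi : i = t
          · subst hi; rw [Function.update_self]; exact hu.2.1
          · rw [Function.update_of_ne hi]; exact hmono i
        · rw [Function.update_of_ne (Ne.symm htc)]
          exact hc
        · intro k h1 h2 h3
          by_cases hi : k = t
          · subst hi; rw [Function.update_self]; exact AddSubmonoid.subset_closure hu
          · rw [Function.update_of_ne hi]; exact hK k h1 h2 h3
        · intro k hkT h1 h2 h3
          by_cases hi : k = t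
          · subst hi; rw [Function.update_self]; exact hu.2.2
          · rw [Function.update_of_ne hi]
            exact hg k (fun h => (mem_insert.1 h).elim hi hkT) h1 h2 h3
      | zero => simp
      | add u v _ _ h1 h2 =>
        simp only [Pi.add_apply, add_mul, sum_add_distrib]
        exact add_nonneg h1 h2

end Pool.Agent.Lib.MP_17d4d1_pr.S.H73
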