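import Pool.Agent.Lib.MP_17d4d1_pr.S.H28.Three
import Pool.Agent.Lib.MP_17d4d1_pr.S.H30.Words
import Pool.Agent.Lib.MP_17d4d1_pr.S.H30.Prod
import Pool.Agent.Lib.MP_17d4d1_pr.S.H32.Star
import Pool.Agent.Lib.MP_17d4d1_pr.S.H43.Ustar
import Pool.Agent.Lib.MP_17d4d1_pr.S.H64.En3
import Pool.Agent.Lib.MP_17d4d1_pr.S.H64.Marg
import Pool.Agent.Lib.MP_17d4d1_pr.S.H72.Repr
import Pool.Agent.Lib.MP_17d4d1_pr.S.H72.Star0
import Pool.Agent.Lib.MP_17d4d1_pr.S.H73.Cls
import Pool.Agent.Lib.MP_17d4d1_pr.S.H73.Main
import Pool.Agent.Lib.MP_17d4d1_pr.S.H74.Bits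

set_option autoImplicit false

/-!
# Functions of at most three elements belong to the class; all modules put together
-/

namespace Pool.Agent.Lib.MP_17d4d1_pr.S.H73

open Finset Pool.Agent.Lib.MP_17d4d1_pr Pool.Agent.Lib.MP_17d4d1_pr.S

variable {X : Type} [Fintype X] [DecidableEq X]

theorem ustar_all : USTAR_S := H43.ustar (H72.repr H74.bits) (H30.prod H30.words)

theorem star_all : STAR_S := H32.star H64.marg H72.star0

theorem cls_all : CLS_S := cls ustar_all star_all

theorem Cls.smul {u : Finset X → ℝ} (c : ℝ) (hc : 0 ≤ c) (hu : Cls u) :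
    Cls (fun A => c * u A) := by
  have := Cls.mul (fun _ => c) u (fun _ => hc) monotone_const (fun _ _ => le_refl _) hu
  exact this

theorem cls_three (N : ℕ) : ∀ (Y : Finset X) (u : Finset X → ℝ),
    (univ.filter fun A => u A ≠ u ∅).card = N → Y.card ≤ 3 → (∀ A, 0 ≤ u A) → Monotone u →
    (∀ A, u (A ∩ Y) = u A) → Cls u := by
  induction N using Nat.strong_induction_on with
  | _ N ih =>
    intro Y u hN hY h0 hm hd
    by_cases hne : (univ.filter fun A => u A ≠ u ∅).Nonempty
    · obtain ⟨A1, hA1, hmin⟩ := exists_min_image _ u hne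
      have hge : ∀ A, u ∅ ≤ u A := fun A => hm (empty_subset A)
      have hA1' : u A1 ≠ u ∅ := (mem_filter.1 hA1).2
      have hlt : u ∅ < u A1 := lt_of_le_of_ne (hge A1) (Ne.symm hA1')
      have hmin' : ∀ A, u A ≠ u ∅ → u A1 ≤ u A := fun A hA =>
        hmin A (mem_filter.2 ⟨mem_univ _, hA⟩)
      set s := u A1 with hs
      set p : Finset X → ℝ := fun A => if u A = u ∅ then 0 else 1 with hp
      set v : Finset X → ℝ := fun A => if u A = u ∅ then u ∅ else u A - s + u ∅ with hv
      have hpm : Ind p := by
        refine ⟨fun A => ?_, fun A B hAB => ?_⟩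
        · by_cases h : u A = u ∅
          · left; simp [hp, h]
          · right; simp [hp, h]
        · by_cases h : u B = u ∅
          · have : u A = u ∅ := le_antisymm (h ▸ hm hAB) (hge A)
            simp [hp, h, this]
          · simp only [hp, if_neg h]
            split_ifs <;> norm_num
      have hpd : ∀ A, p (A ∩ Y) = p A := fun A => by simp only [hp, hd]
      have hpc : Cls p := H28.three X Y p hY hpm hpd
      have hv0 : v ∅ = u ∅ := by simp [hv]
      have hvge : ∀ A, u ∅ ≤ v A := by
        intro A
        by_cases h : u A = u ∅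
        · simp [hv, h]
        · simp only [hv, if_neg h]
          linarith [hmin' A h]
      have hvc : Cls v := by
        refine ih _ ?_ Y v rfl hY ?_ ?_ ?_
        · rw [← hN]
          refine card_lt_card ?_
          rw [ssubset_iff_of_subset]
          · refine ⟨A1, hA1, ?_⟩
            rw [mem_filter]
            push Not
            intro _
            rw [hv0]
            simp [hv, ← hs]
          · intro A hA
            rw [mem_filter, hv0] at hA
            refine mem_filter.2 ⟨mem_univ _, fun h => hA.2 ?_⟩
            simp [hv, h]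
        · intro A
          exact (h0 ∅).trans (hvge A)
        · intro A B hAB
          by_cases h : u A = u ∅
          · have : v A = u ∅ := by simp [hv, h]
            rw [this]
            exact hvge B
          · have hB : u B ≠ u ∅ := fun h' => h (le_antisymm (h' ▸ hm hAB) (hge A))
            simp only [hv, if_neg h, if_neg hB]
            linarith [hm hAB]
        · intro A
          simp only [hv, hd]
      have hu : u = v + fun A => (s - u ∅) * p A := by
        funext A
        by_cases h : u A = u ∅
        · simp [hv, hp, h]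
        · simp only [Pi.add_apply, hv, hp, if_neg h]
          ring
      rw [hu]
      exact Cls.add _ _ hvc (Cls.smul _ (by linarith) hpc)
    · have : u = fun _ => u ∅ := by
        funext A
        by_contra h
        exact hne ⟨A, mem_filter.2 ⟨mem_univ _, h⟩⟩
      rw [this]
      exact Cls.const _ (h0 ∅)

end Pool.Agent.Lib.MP_17d4d1_pr.S.H73
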